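import Pool.Agent.Helper84.OB.Stmts

/-!
# Row EX of the sheet OB
-/

set_option autoImplicit false

universe u

open Set Pool.Agent.Helper84.BT
open scoped Matroid

namespace Pool.Agent.Helper25.OB

open Pool.Agent.Helper84.OB

theorem EX_inter {α : Type u} (M : Matroid α) (X Y : Set α) (hX : M.IsFlat X)
    (hY : M.IsFlat Y) : M.IsFlat (X ∩ Y) := by
  have h1 : M.closure (X ∩ Y) ⊆ X := by
    have h := M.closure_subset_closure (inter_subset_left (s := X) (t := Y))
    rwa [hX.closure] at h
  have h2 : M.closure (X ∩ Y) ⊆ Y := by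
    have h := M.closure_subset_closure (inter_subset_right (s := X) (t := Y))
    rwa [hY.closure] at h
  rw [Matroid.isFlat_iff_closure_eq]
  exact (subset_inter h1 h2).antisymm
    (M.subset_closure _ (inter_subset_left.trans hX.subset_ground))

theorem EX_over_closure {α : Type u} (M : Matroid α) (K F F' : Set α)
    (h : Over M K F) (h' : Over M K F') (hE : F ⊆ M.E) (hE' : F' ⊆ M.E) :
    Over M K (M.closure (F ∪ F')) := by
  have hs : F ∪ F' ⊆ M.closure (F ∪ F') :=
    M.subset_closure (F ∪ F') (union_subset hE hE')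
  refine ⟨M.isFlat_closure _, h.2.1.trans (subset_union_left.trans hs), ?_⟩
  intro x hx
  by_cases h1 : x ∈ F
  · exact M.closure_subset_closure (sdiff_subset_sdiff_left (subset_union_left.trans hs))
      (h.2.2 x ⟨h1, hx.2⟩)
  · by_cases h2 : x ∈ F'
    · exact M.closure_subset_closure (sdiff_subset_sdiff_left (subset_union_right.trans hs))
        (h'.2.2 x ⟨h2, hx.2⟩)
    · refine M.closure_subset_closure (X := F ∪ F') ?_ hx.1
      intro y hy
      refine ⟨hs hy, ?_⟩
      rintro rfl
      rcases hy with hy | hy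
      · exact h1 hy
      · exact h2 hy

theorem st_EX (h1 : ST_JN.{u}) : ST_EX.{u} := by
  intro α _ M X Y hM hP
  have hXf : M.IsFlat X := hP.hX.1
  have hYf : M.IsFlat Y := hP.hY.1
  have hXE : X ⊆ M.E := hXf.subset_ground
  have hKX : X ∩ Y ≠ X := by
    intro h
    have hXY : X ∪ Y = Y := union_eq_right.mpr (inter_eq_left.mp h)
    have hp := hP.pos
    rw [h, hXY] at hp
    omega
  have hK : Over M (X ∩ Y) (X ∩ Y) :=
    ⟨EX_inter M X Y hXf hYf, subset_rfl, fun x hx => absurd hx.1 hx.2⟩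
  obtain ⟨F, hFS, hFmax⟩ := Set.exists_max_image
    {F : Set α | Over M (X ∩ Y) F ∧ F ⊆ X ∧ F ≠ X} (fun F => F.ncard) (Set.toFinite _)
    ⟨X ∩ Y, hK, inter_subset_left, hKX⟩
  obtain ⟨hFo, hFX, hFne⟩ := hFS
  have hall : ∀ F' : Set α, Over M (X ∩ Y) F' → F' ⊆ X → F' ≠ X → F' ⊆ F := by
    intro F' ho hX' hne
    have hs : F ∪ F' ⊆ M.closure (F ∪ F') :=
      M.subset_closure (F ∪ F') (union_subset (hFX.trans hXE) (hX'.trans hXE))
    have hcX : M.closure (F ∪ F') ⊆ X := by
      have h2 := M.closure_subset_closure (union_subset hFX hX')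
      rwa [hXf.closure] at h2
    have hmem : M.closure (F ∪ F') ∈ {F : Set α | Over M (X ∩ Y) F ∧ F ⊆ X ∧ F ≠ X} := by
      refine ⟨EX_over_closure M _ F F' hFo ho (hFX.trans hXE) (hX'.trans hXE), hcX, ?_⟩
      intro h
      have h3 := h1 α M X Y F F' hM hP hFo hFX hFne ho hX' hne
      rw [← rk_closure, h] at h3
      omega
    have h4 := hFmax _ hmem
    have h5 : F = M.closure (F ∪ F') :=
      Set.eq_of_subset_of_ncard_le (subset_union_left.trans hs) h4 (Set.toFinite _)
    rw [h5]
    exact subset_union_right.trans hs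
  obtain ⟨e, heX, heF⟩ := exists_of_ssubset (hFX.ssubset_of_ne hFne)
  refine ⟨e, heX, fun heY => heF (hFo.2.1 ⟨heX, heY⟩), ?_⟩
  intro F' ho hX' he'
  by_contra hne
  exact heF (hall F' ho hX' hne he')

end Pool.Agent.Helper25.OB
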